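import Mathlib
import Pool.Agent.H82.BPADelta.Defs
import Pool.Agent.H82.BPADelta.Final

set_option autoImplicit false

/-!
# Every equational axiomatization of bisimilarity over `BPA*_δ` contains infinitely many
# equations in two or more variables

All definitions used in the statement are in `Pool.Agent.H82.BPADelta.Defs`.

Idea of the proof. For a finite group `G` consider the algebra `Set G × Prop` in which
`(E, W)` records the group elements realised by terminating traces, and whether there is an
accessible loop whose body generates `G`. If `G` is perfect, this algebra satisfies all valid
equations in at most one variable, and if all proper subgroups of `G` have index larger than `m`,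
it satisfies all valid equations between terms with at most `m` residuals. For `G = Alt(p)`,
`p ≥ 5` prime, both properties hold (with `m = p - 1`), but the valid equation
`(x+y)*δ = ((x+y)((x+y)(y + x(y*(x(y*(... (y*x)))))))*δ`, with `p - 3` occurrences of `y*`, fails.
-/

universe u v

namespace Pool.Agent.Results.MP_f6b51f_lc.InfinitelyManyMultivariable

open Pool.Agent.H82.BPADelta

/-- Let `A` be a nonempty set of actions and `V` a set of variables with at least two elements.
Every equational axiomatization `E` of bisimilarity over `BPA*_δ` contains infinitely many
equations in which at least two distinct variables occur. -/
theorem result {A : Type u} {V : Type v} [Nonempty A] [Nontrivial V]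
    (E : Set (Term A V × Term A V)) (hE : IsAxiomatization E) :
    {e ∈ E | Multivariable e}.Infinite :=
  main E hE

end Pool.Agent.Results.MP_f6b51f_lc.InfinitelyManyMultivariable
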